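import Pool.Agent.ANP.StmtsD

/-!
# The wrapper for the event `WL`: from the analysis off `Vi` to the interface `Ana`

`Vi T`: the dead sites of the configuration already exclude the set `F`. Everything is allowed there.
-/

set_option autoImplicit false

open MeasureTheory ProbabilityTheory

open scoped ENNReal NNReal BigOperators

noncomputable section

namespace Pool.Agent.ANP.H16

open Pool.Agent.ANP

/-- monotonicity of an attempt in its goal -/
theorem att_imp {X : Type} [Fintype X] [DecidableEq X] {R Q : Finset X} {v : X → ℝ}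
    {Ok Ok' : Cfg X → Prop} (h : ∀ T, Ok T → Ok' T) {T : Cfg X} {q : ℝ≥0∞}
    (hA : Att R Q v Ok T q) : Att R Q v Ok' T q := by
  induction hA with
  | ok T hT => exact Att.ok T (h T hT)
  | one T => exact Att.one T
  | mono T q q' hq _ ih => exact Att.mono T q q' hq ih
  | ap T b q hb _ ih => exact Att.ap T b q hb ih
  | kill T D q hD hs hq _ ih => exact Att.kill T D q hD hs hq ih

/-- what is needed of the predicate `Vi` -/
structure ViOk {X : Type} [Fintype X] [DecidableEq X] (F : Set (X → ℝ)) (Vi : Cfg X → Prop) :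
    Prop where
  /-- `Vi` depends on the dead sites and is monotone in them -/
  mono : ∀ T T' : Cfg X, (∀ x, T.s x = 0 → T'.s x = 0 ∧ T'.V x = T.V x) → Vi T → Vi T'
  /-- the end -/
  win : ∀ (T : Cfg X) (a : X → ℝ) (r : X → ℝ≥0), Vi T → (∀ x, T.s x = 0 → a x = T.V x ∧ r x = 0) →
    Win F a r (1 / 4)

/-- the predicate for the torus: the dead sites violate a family of closed conditions -/
theorem viok_of {X : Type} [Fintype X] [DecidableEq X] (F : Set (X → ℝ))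
    (C : (X → ℝ) → Finset X → Prop)
    (hC : ∀ V V' D, (∀ x ∈ D, V' x = V x) → C V D → C V' D)
    (hF : ∀ U ∈ F, ∀ D, ¬ C U D) :
    ViOk F (fun T : Cfg X => ∃ D, (∀ x ∈ D, T.s x = 0) ∧ C T.V D) := by
  refine ⟨?_, ?_⟩
  · rintro T T' h ⟨D, h1, h2⟩
    exact ⟨D, fun x hx => (h x (h1 x hx)).1, hC _ _ D (fun x hx => (h x (h1 x hx)).2) h2⟩
  · rintro T a r ⟨D, h1, h2⟩ h
    have h3 : gm a r F = 0 := by
      refine measure_mono_null (t := {U | ∃ x ∈ D, U x ≠ a x}) ?_ ?_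
      · intro U hU
        by_contra hc
        simp only [Set.mem_ofPred_eq, not_exists, not_and, not_not] at hc
        exact hF U hU D (hC T.V U D (fun x hx => by rw [hc x hx, (h x (h1 x hx)).1]) h2)
      · have h4 : {U : X → ℝ | ∃ x ∈ D, U x ≠ a x} ⊆ ⋃ x ∈ D, {U : X → ℝ | U x ≠ a x} := by
          rintro U ⟨x, hx, hU⟩
          exact Set.mem_biUnion hx hU
        refine measure_mono_null h4 ?_
        refine (measure_biUnion_null_iff (μ := gm a r) (s := fun x => {U : X → ℝ | U x ≠ a x})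
          D.countable_toSet).2 ?_
        intro x hx
        have h5 : gm a r {U : X → ℝ | U x ≠ a x} =
            (Measure.map (fun U : X → ℝ => U x) (gm a r)) {u : ℝ | u ≠ a x} := by
          rw [Measure.map_apply (measurable_pi_apply x) (by measurability)]
          rfl
        have h6 : Measure.map (fun U : X → ℝ => U x) (gm a r) = gaussianReal (a x) (r x) := by
          unfold gm
          exact (measurePreserving_eval (fun x => gaussianReal (a x) (r x)) x).map_eq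
        rw [h5, h6, (h x (h1 x hx)).2, gaussianReal_zero_var]
        rw [Measure.dirac_apply' _ (by measurability)]
        simp
    unfold Win
    rw [measureReal_def, h3]
    norm_num

/-- THE ANALYSIS OFF `Vi`. The same fields as `Ana`; every hypothesis may use `¬ Vi`, every conclusion
may end in `Vi`. -/
structure Ana0 {X : Type} [Fintype X] [DecidableEq X] (Γ : Geo X) (d : ℕ) (o : X)
    (F : Set (X → ℝ)) (th : ℝ≥0) (kk : ℕ → ℕ) (cl : ℕ → ℝ≥0) (Kn Dn : ℕ → ℕ) (p : ℕ → ℝ)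
    (Vi : Cfg X → Prop) where
  /-- start of a stage -/
  HS : ℕ → ℕ → Cfg X → Finset X → Prop
  /-- during a stage -/
  HM : ℕ → ℕ → Cfg X → Finset X → Finset X → Cfg X → Finset X → Prop
  /-- during the release phase -/
  HR : ℕ → Cfg X → Finset X → Finset X → Cfg X → Finset X → Prop
  /-- the first gauge -/
  m0 : X → ℂ
  ini : HS 0 0 ⟨fun _ => 0, fun _ => cl 0, m0⟩ Finset.univ
  beg : ∀ n k T run, n ≤ Γ.N → kk n ≤ k → k < kk (n + 1) → Fc Γ kk cl Dn n k ∅ T run →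
    ¬ Vi T → HS n k T run → HM n k T run ∅ T run
  mmon : ∀ n k T₀ run₀ P P' T run run', P ⊆ P' → run' ⊆ run → Fc Γ kk cl Dn n k P T run →
    Fc Γ kk cl Dn n k P' T run' → ¬ Vi T₀ → ¬ Vi T → HS n k T₀ run₀ →
    HM n k T₀ run₀ P T run → HM n k T₀ run₀ P' T run'
  flo : ∀ n k T₀ run₀ P T run B, n ≤ Γ.N → kk n ≤ k → k < kk (n + 1) → Γ.bl n B = B →
    Disjoint P (Γ.blk n B) → ¬ Vi T₀ → ¬ Vi T → HS n k T₀ run₀ → Fc Γ kk cl Dn n k ∅ T₀ run₀ →
    Fc Γ kk cl Dn n k P T run → HM n k T₀ run₀ P T run →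
    gm (fun _ => 0) (T.hv th (run ∩ Γ.blk n B))
      {ζ | ¬ (Vi (T.hf th (run ∩ Γ.blk n B) ζ) ∨
        HM n k T₀ run₀ (P ∪ Γ.blk n B) (T.hf th (run ∩ Γ.blk n B) ζ) run)} ≤
      ENNReal.ofReal (p n)
  fin : ∀ n k T₀ run₀ T run, n ≤ Γ.N → kk n ≤ k → k < kk (n + 1) →
    ¬ Vi T₀ → ¬ Vi T → HS n k T₀ run₀ → Fc Γ kk cl Dn n k ∅ T₀ run₀ →
    Fc Γ kk cl Dn n k Finset.univ T run → HM n k T₀ run₀ Finset.univ T run →
    ∃ m, HS n (k + 1) (T.rg m) run
  rbeg : ∀ n T run, n ≤ Γ.N → Fc Γ kk cl Dn n (kk (n + 1)) ∅ T run → ¬ Vi T →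
    HS n (kk (n + 1)) T run → HR n T run ∅ T run
  rmon : ∀ n T₀ run₀ P P' T run run', P ⊆ P' → run' ⊆ run →
    Fc Γ kk cl Dn n (kk (n + 1)) ∅ T run → Fc Γ kk cl Dn n (kk (n + 1)) ∅ T run' →
    ¬ Vi T₀ → ¬ Vi T → HS n (kk (n + 1)) T₀ run₀ →
    HR n T₀ run₀ P T run → HR n T₀ run₀ P' T run'
  kil : ∀ n T₀ run₀ P T run (Q : Finset X) (v : X → ℝ), n ≤ Γ.N → 1 ≤ n →
    ¬ Vi T₀ → ¬ Vi T →
    HS n (kk (n + 1)) T₀ run₀ → Fc Γ kk cl Dn n (kk (n + 1)) ∅ T₀ run₀ →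
    Fc Γ kk cl Dn n (kk (n + 1)) ∅ T run → HR n T₀ run₀ P T run →
    Q.Nonempty → (∀ x ∈ Q, x ∉ run ∧ 0 < T.s x) → (∀ x ∈ Q, ∀ y ∈ Q, Γ.D x y ≤ 2 * Γ.L n) →
    Q.card ≤ 3 ^ d * Γ.J * (6 * Γ.L (n - 1) + 1) ^ d →
    (∀ x ∈ Q, ∀ y, Γ.D x y ≤ Γ.ρ n → y ∈ Q ∨ y ∈ run ∨ T.s y = 0) →
    (∀ x ∈ Q, ∀ y ∈ P, 3 * Γ.ρ n < Γ.D x y) →
    Att (run ∩ Γ.nbh Q (Γ.ρ n)) Q v (fun T' =>
      (∀ x ∈ Q, T'.V x = v x ∧ T'.s x = 0) ∧
      ({x ∈ run | T'.s x = 0} : Finset X).card ≤ Kn n ∧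
      (Vi T' ∨ HR n T₀ run₀ (P ∪ Γ.nbh Q (Γ.ρ n)) T' {x ∈ run | T'.s x ≠ 0})) T
        (ENNReal.ofReal (p n))
  rfin : ∀ n T₀ run₀ P T run run', n ≤ Γ.N → ¬ Vi T₀ → ¬ Vi T → HS n (kk (n + 1)) T₀ run₀ →
    Fc Γ kk cl Dn n (kk (n + 1)) ∅ T₀ run₀ → Fc Γ kk cl Dn n (kk (n + 1)) ∅ T run →
    HR n T₀ run₀ P T run → run' ⊆ run → Fc Γ kk cl Dn (n + 1) (kk (n + 1)) ∅ T run' →
    ∃ m, HS (n + 1) (kk (n + 1)) (T.rg m) run'
  out : ∀ T run (a : X → ℝ) (r : X → ℝ≥0), ¬ Vi T → HS (Γ.N + 1) (kk (Γ.N + 1)) T run →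
    Fc Γ kk cl Dn (Γ.N + 1) (kk (Γ.N + 1)) ∅ T run → o ∈ run →
    (∀ x, x ∉ run → T.s x ≠ 0 → 3 * Γ.ρ (Γ.N + 1) < Γ.D o x) →
    (∀ x, x ∈ run ∨ T.s x = 0 → a x = T.V x ∧ r x = T.s x) → Win F a r (1 / 4)

/-- the sites of `Q` are applied one after the other -/
theorem att_ap_all {X : Type} [Fintype X] [DecidableEq X] {R Q : Finset X} {v : X → ℝ}
    {Ok : Cfg X → Prop} (T : Cfg X) (Q' : Finset X) (hQ : Q' ⊆ Q) {q : ℝ≥0∞}
    (h : Att R Q v Ok (T.rv Q' v) q) : Att R Q v Ok T q := by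
  classical
  induction Q' using Finset.induction_on generalizing T with
  | empty =>
    have : T.rv ∅ v = T := by
      unfold Cfg.rv
      simp
    rwa [this] at h
  | insert b Q' hb ih =>
    have h1 : T.rv (insert b Q') v = (T.rv {b} v).rv Q' v := by
      unfold Cfg.rv
      congr 1
      · funext x
        by_cases h1 : x ∈ Q' <;> by_cases h2 : x = b <;> simp [h1, h2]
      · funext x
        by_cases h1 : x ∈ Q' <;> by_cases h2 : x = b <;> simp [h1, h2]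
    rw [h1] at h
    refine Att.ap T b q (hQ (Finset.mem_insert_self b Q')) ?_
    exact ih (T.rv {b} v) (fun x hx => hQ (Finset.mem_insert_of_mem hx)) h

/-- THE CONSTRUCTOR -/
def ana_of_ana0 {X : Type} [Fintype X] [DecidableEq X] {Γ : Geo X} {d : ℕ} {o : X}
    {F : Set (X → ℝ)} {th : ℝ≥0} {kk : ℕ → ℕ} {cl : ℕ → ℝ≥0} {Kn Dn : ℕ → ℕ} {p : ℕ → ℝ}
    {Vi : Cfg X → Prop} (hV : ViOk F Vi) (hcl : ∀ k, 0 < cl k)
    (A : Ana0 Γ d o F th kk cl Kn Dn p Vi) : Ana Γ d o F th kk cl Kn Dn p where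
  HS n k T run := Vi T ∨ A.HS n k T run
  HM n k T₀ run₀ P T run := Vi T ∨ (¬ Vi T₀ ∧ A.HS n k T₀ run₀ ∧ A.HM n k T₀ run₀ P T run)
  HR n T₀ run₀ P T run := Vi T ∨ (¬ Vi T₀ ∧ A.HS n (kk (n + 1)) T₀ run₀ ∧ A.HR n T₀ run₀ P T run)
  m0 := A.m0
  ini := Or.inr A.ini
  beg n k T run h1 h2 h3 h4 h5 := by
    by_cases hT : Vi T
    · exact Or.inl hT
    · have h6 := h5.resolve_left hT
      exact Or.inr ⟨hT, h6, A.beg n k T run h1 h2 h3 h4 hT h6⟩
  mmon n k T₀ run₀ P P' T run run' h1 h2 h3 h4 h5 := by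
    by_cases hT : Vi T
    · exact Or.inl hT
    · obtain ⟨h6, h7, h8⟩ := h5.resolve_left hT
      exact Or.inr ⟨h6, h7, A.mmon n k T₀ run₀ P P' T run run' h1 h2 h3 h4 h6 hT h7 h8⟩
  flo n k T₀ run₀ P T run B h1 h2 h3 h4 h5 h6 h7 h8 h9 := by
    by_cases hT : Vi T
    · refine le_trans (le_of_eq ?_) (zero_le (α := ℝ≥0∞))
      refine measure_mono_null (t := ∅) ?_ (measure_empty)
      intro ζ hζ
      refine absurd (Or.inl (hV.mono T _ (fun x hx => ?_) hT)) hζ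
      have hx1 : x ∉ run := by
        intro hr
        have h10 := h8.runs x hr
        rw [hx] at h10
        split_ifs at h10
        · exact (hcl _).ne h10
        · exact (hcl _).ne h10
      have hx2 : x ∉ run ∩ Γ.blk n B := fun h => hx1 (Finset.mem_inter.1 h).1
      unfold Cfg.hf
      simp only
      rw [if_neg hx2, if_neg hx2]
      exact ⟨hx, rfl⟩
    · obtain ⟨g1, g2, g3⟩ := h9.resolve_left hT
      refine le_trans (measure_mono ?_)
        (A.flo n k T₀ run₀ P T run B h1 h2 h3 h4 h5 g1 hT g2 h7 h8 g3)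
      intro ζ hζ
      simp only [Set.mem_ofPred_eq] at hζ ⊢
      intro hc
      refine hζ ?_
      rcases hc with hc | hc
      · exact Or.inl hc
      · exact Or.inr ⟨g1, g2, hc⟩
  fin n k T₀ run₀ T run h1 h2 h3 h4 h5 h6 h7 := by
    by_cases hT : Vi T
    · exact ⟨T.mb, Or.inl (hV.mono T _ (fun x hx => ⟨hx, rfl⟩) hT)⟩
    · obtain ⟨g1, g2, g3⟩ := h7.resolve_left hT
      obtain ⟨m, hm⟩ := A.fin n k T₀ run₀ T run h1 h2 h3 g1 hT g2 h5 h6 g3
      exact ⟨m, Or.inr hm⟩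
  rbeg n T run h1 h2 h3 := by
    by_cases hT : Vi T
    · exact Or.inl hT
    · have h4 := h3.resolve_left hT
      exact Or.inr ⟨hT, h4, A.rbeg n T run h1 h2 hT h4⟩
  rmon n T₀ run₀ P P' T run run' h1 h2 h3 h4 h5 := by
    by_cases hT : Vi T
    · exact Or.inl hT
    · obtain ⟨h6, h7, h8⟩ := h5.resolve_left hT
      exact Or.inr ⟨h6, h7, A.rmon n T₀ run₀ P P' T run run' h1 h2 h3 h4 h6 hT h7 h8⟩
  kil n T₀ run₀ P T run Q v h1 h2 h3 h4 h5 h6 h7 h8 h9 h10 h11 h12 := by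
    by_cases hT : Vi T
    · refine att_ap_all T Q (Finset.Subset.refl Q) ?_
      refine Att.mono _ 0 _ (zero_le (α := ℝ≥0∞)) (Att.ok _ ?_)
      refine ⟨?_, ?_, ?_⟩
      · intro x hx
        unfold Cfg.rv
        simp [hx]
      · have he : ({x ∈ run | (T.rv Q v).s x = 0} : Finset X) = ∅ := by
          refine Finset.filter_eq_empty_iff.2 ?_
          intro x hx hc
          have hxQ : x ∉ Q := fun h => (h8 x h).1 hx
          unfold Cfg.rv at hc
          simp only at hc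
          rw [if_neg hxQ] at hc
          have h13 := h5.runs x hx
          rw [hc] at h13
          split_ifs at h13
          · exact (hcl _).ne h13
          · exact (hcl _).ne h13
        rw [he]
        exact Nat.zero_le _
      · left
        refine hV.mono T _ (fun x hx => ?_) hT
        have hxQ : x ∉ Q := fun h => (h8 x h).2.ne' hx
        unfold Cfg.rv
        simp only
        rw [if_neg hxQ, if_neg hxQ]
        exact ⟨hx, rfl⟩
    · obtain ⟨g1, g2, g3⟩ := h6.resolve_left hT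
      refine att_imp ?_ (A.kil n T₀ run₀ P T run Q v h1 h2 g1 hT g2 h4 h5 g3 h7 h8 h9 h10 h11 h12)
      rintro T' ⟨e1, e2, e3⟩
      refine ⟨e1, e2, ?_⟩
      rcases e3 with e3 | e3
      · exact Or.inl e3
      · exact Or.inr ⟨g1, g2, e3⟩
  rfin n T₀ run₀ P T run run' h1 h2 h3 h4 h5 h6 h7 := by
    by_cases hT : Vi T
    · exact ⟨T.mb, Or.inl (hV.mono T _ (fun x hx => ⟨hx, rfl⟩) hT)⟩
    · obtain ⟨g1, g2, g3⟩ := h5.resolve_left hT
      obtain ⟨m, hm⟩ := A.rfin n T₀ run₀ P T run run' h1 g1 hT g2 h3 h4 g3 h6 h7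
      exact ⟨m, Or.inr hm⟩
  out T run a r h1 h2 h3 h4 h5 := by
    by_cases hT : Vi T
    · refine hV.win T a r hT (fun x hx => ?_)
      have := h5 x (Or.inr hx)
      rw [hx] at this
      exact this
    · exact A.out T run a r hT (h1.resolve_left hT) h2 h3 h4 h5

end Pool.Agent.ANP.H16
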