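import Pool.Agent.AND2B.Top
import Pool.Agent.Helper16_AND.Ana0

/-!
# AND2B: `AnaStmt` from the analysis off `Viol`
-/

set_option autoImplicit false

open MeasureTheory ProbabilityTheory

open scoped BigOperators NNReal ENNReal Matrix

noncomputable section

namespace Pool.Agent.AND2B.H16

open Pool.Agent.BED (Tor gau)
open Pool.Agent.ANE (SolT)
open Pool.Agent.ANP
open Pool.Agent.ANP.H16 (Ana0 ana_of_ana0 ViOk viok_of)

theorem wld_congr {d M : ℕ} [NeZero M] (E L : ℝ) (V V' : Tor d M → ℝ) (D : Finset (Tor d M))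
    (h : ∀ x ∈ D, V' x = V x) (hW : WLD E L V' D) : WLD E L V D := by
  intro u hu
  have h1 := hW u hu
  have h2 : ∑ x ∈ D, ‖∑ y, (Hr V' E x y : ℂ) * u y‖ ^ 2 =
      ∑ x ∈ D, ‖∑ y, (Hr V E x y : ℂ) * u y‖ ^ 2 := by
    refine Finset.sum_congr rfl fun x hx => ?_
    have h3 : ∀ y, Hr V' E x y = Hr V E x y := by
      intro y
      unfold Hr
      rw [Matrix.add_apply, Matrix.add_apply, Matrix.diagonal_apply, Matrix.diagonal_apply, h x hx]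
    simp only [h3]
  rw [h2] at h1
  exact h1

/-- the predicate `Viol` is admissible -/
theorem viok {d M : ℕ} [NeZero M] (E A ε : ℝ) (R : ℕ) (L : ℝ) :
    ViOk (FF d M E A ε R L) (Viol (d := d) (M := M) E L) := by
  refine viok_of (FF d M E A ε R L) (fun V D => ¬ WLD E L V D) ?_ ?_
  · intro V V' D h h1 h2
    exact h1 (wld_congr E L V V' D h h2)
  · rintro U ⟨hU, -⟩ D h
    exact h (hU D)

/-- ANA0: THE ANALYSIS OFF `Viol`: `AnaStmt` with `Ana0` instead of `Ana` -/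
def Ana0Stmt : Prop :=
  ∀ (d : ℕ) (a : ℝ), 3 ≤ d → 0 < a → ∃ (th : ℝ≥0) (c₁ : ℝ), 1 / 2 ≤ th ∧ th < 1 ∧ 0 < c₁ ∧
    ∀ (C₁ : ℝ) (α J : ℕ), 2 ≤ α → ∃ β w₀ : ℝ, 0 < β ∧ 0 < w₀ ∧
      ∀ (w : ℝ≥0) (E : ℝ), 0 < w → (w : ℝ) ≤ w₀ → |E| < 2 * d - a →
      ∃ ε : ℝ, 0 < ε ∧ ∀ (A : ℝ) (R : ℕ), ∃ t : ℝ, 0 < t ∧
        ∀ (N μ : ℕ) (kk l r Kn Dn : ℕ → ℕ), Scal d th c₁ C₁ α J β w t N μ kk l r Kn Dn →
          ∀ L : ℝ, 1 ≤ L → Nonempty (Ana0 (Gt d μ J N l r) d 0 (FF d (2 ^ μ) E A ε R L) th kk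
            (cl w th) Kn Dn (pf w th kk β N) (Viol (d := d) (M := 2 ^ μ) E L))

theorem cl_pos {w th : ℝ≥0} (hw : 0 < w) (hth : 0 < th) (k : ℕ) : 0 < cl w th k := by
  unfold cl
  positivity

/-- `AnaStmt` from the analysis off `Viol` -/
theorem ana_stmt (h : Ana0Stmt) : AnaStmt := by
  intro d a hd ha
  obtain ⟨th, c₁, h1, h2, h3, h⟩ := h d a hd ha
  refine ⟨th, c₁, h1, h2, h3, fun C₁ α J hα => ?_⟩
  obtain ⟨β, w₀, hβ, hw₀, h⟩ := h C₁ α J hα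
  refine ⟨β, w₀, hβ, hw₀, fun w E hw hw' hE => ?_⟩
  obtain ⟨ε, hε, h⟩ := h w E hw hw' hE
  refine ⟨ε, hε, fun A R => ?_⟩
  obtain ⟨t, ht, h⟩ := h A R
  refine ⟨t, ht, fun N μ kk l r Kn Dn hS L hL => ?_⟩
  obtain ⟨Z⟩ := h N μ kk l r Kn Dn hS L hL
  have hth : 0 < th := lt_of_lt_of_le (by norm_num) h1
  exact ⟨ana_of_ana0 (viok E A ε R L) (cl_pos hw hth) Z⟩

end Pool.Agent.AND2B.H16
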